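import Pool.Agent.H2.KL.Stm3

set_option autoImplicit false

open Finset Module

namespace H12.KL

open H2.KL

/-- CLI (Clifford, lower bound). -/
theorem t_CLI : S_CLI := by
  intro G _ _ T A hAn V _ _ _ ρ χ w hw hA hst
  classical
  have := Fintype.ofFinite G
  have : Fintype (G ⧸ T) := Fintype.ofFinite _
  have : Fintype A := Fintype.ofFinite _
  -- multiplicativity
  have hmul : ∀ a ∈ A, ∀ b ∈ A, χ (a * b) = χ a * χ b := by
    intro a ha b hb
    have h1 : χ (a * b) • w = (χ a * χ b) • w := by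
      rw [← hA _ (mul_mem ha hb), map_mul, Module.End.mul_apply, hA b hb, map_smul, hA a ha,
        smul_smul, mul_comm]
    exact smul_left_injective ℂ hw h1
  have hone : χ 1 = 1 := by
    have h1 : χ 1 • w = (1 : ℂ) • w := by
      rw [← hA _ (one_mem A), map_one, Module.End.one_apply, one_smul]
    exact smul_left_injective ℂ hw h1
  have hconj : ∀ (x : G), ∀ a ∈ A, x⁻¹ * a * x ∈ A := by
    intro x a ha
    have := hAn.conj_mem a ha x⁻¹
    rwa [inv_inv] at this
  have hconj' : ∀ (x : G), ∀ a ∈ A, x * a * x⁻¹ ∈ A := fun x a ha => hAn.conj_mem a ha x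
  -- eigenvectors
  have heig : ∀ (y : G), ∀ a ∈ A, ρ a (ρ y w) = χ (y⁻¹ * a * y) • ρ y w := by
    intro y a ha
    rw [← map_smul, ← hA _ (hconj y a ha), ← Module.End.mul_apply, ← Module.End.mul_apply,
      ← map_mul, ← map_mul]
    congr 2
    group
  let Sst : G → Prop := fun g => ∀ a ∈ A, χ (g⁻¹ * a * g) = χ a
  let E : G → (V →ₗ[ℂ] V) := fun x => ∑ a : A, χ (x⁻¹ * (a : G)⁻¹ * x) • ρ (a : G)
  have hE : ∀ x y : G, E x (ρ y w) =
      (∑ a : A, χ (x⁻¹ * (a : G)⁻¹ * x) * χ (y⁻¹ * (a : G) * y)) • ρ y w := by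
    intro x y
    simp only [E, LinearMap.sum_apply, LinearMap.smul_apply]
    rw [Finset.sum_smul]
    refine Finset.sum_congr rfl fun a _ => ?_
    rw [heig y a a.2, smul_smul]
  have hE1 : ∀ x : G, E x (ρ x w) = (Fintype.card A : ℂ) • ρ x w := by
    intro x
    rw [hE]
    congr 1
    have : ∀ a : A, χ (x⁻¹ * (a : G)⁻¹ * x) * χ (x⁻¹ * (a : G) * x) = 1 := by
      intro a
      rw [← hmul _ (hconj x _ (inv_mem a.2)) _ (hconj x _ a.2)]
      have h3 : x⁻¹ * (a : G)⁻¹ * x * (x⁻¹ * (a : G) * x) = 1 := by group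
      rw [h3, hone]
    rw [Finset.sum_congr rfl fun a _ => this a]
    simp
  have hE0 : ∀ x y : G, ¬ Sst (y⁻¹ * x) → E x (ρ y w) = 0 := by
    intro x y h
    have hex : ∃ b ∈ A, χ (x⁻¹ * b * x) ≠ χ (y⁻¹ * b * y) := by
      by_contra hcon
      push Not at hcon
      apply h
      intro a ha
      have h1 := hcon (y * a * y⁻¹) (hconj' y a ha)
      have h2 : x⁻¹ * (y * a * y⁻¹) * x = (y⁻¹ * x)⁻¹ * a * (y⁻¹ * x) := by group
      have h3 : y⁻¹ * (y * a * y⁻¹) * y = a := by group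
      rw [h2, h3] at h1
      exact h1
    obtain ⟨b, hb, hne⟩ := hex
    -- sum is invariant
    set s : ℂ := ∑ a : A, χ (x⁻¹ * (a : G)⁻¹ * x) * χ (y⁻¹ * (a : G) * y) with hs
    set c : ℂ := χ (x⁻¹ * b⁻¹ * x) * χ (y⁻¹ * b * y) with hc
    have h1 : s = c * s := by
      conv_lhs => rw [hs]
      rw [hs, Finset.mul_sum]
      refine (Fintype.sum_equiv (Equiv.mulRight (⟨b, hb⟩ : A)) _ _ ?_).symm
      intro a
      simp only [Equiv.coe_mulRight, Subgroup.coe_mul]
      have h2 : x⁻¹ * ((a : G) * b)⁻¹ * x = (x⁻¹ * b⁻¹ * x) * (x⁻¹ * (a : G)⁻¹ * x) := by group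
      have h3 : y⁻¹ * ((a : G) * b) * y = (y⁻¹ * (a : G) * y) * (y⁻¹ * b * y) := by group
      rw [h2, h3, hmul _ (hconj x _ (inv_mem hb)) _ (hconj x _ (inv_mem a.2)),
        hmul _ (hconj y _ a.2) _ (hconj y _ hb), hc]
      ring
    have hc1 : c ≠ 1 := by
      intro h2
      apply hne
      have h3 : χ (x⁻¹ * b * x) * χ (x⁻¹ * b⁻¹ * x) = 1 := by
        rw [← hmul _ (hconj x _ hb) _ (hconj x _ (inv_mem hb)), ← hone]
        congr 1
        group
      calc χ (x⁻¹ * b * x) = χ (x⁻¹ * b * x) * c := by rw [h2, mul_one]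
        _ = (χ (x⁻¹ * b * x) * χ (x⁻¹ * b⁻¹ * x)) * χ (y⁻¹ * b * y) := by rw [hc]; ring
        _ = χ (y⁻¹ * b * y) := by rw [h3, one_mul]
    have h4 : s = 0 := by
      have h5 : (c - 1) * s = 0 := by
        rw [sub_mul, one_mul, ← h1, sub_self]
      rcases mul_eq_zero.mp h5 with h6 | h6
      · exact absurd (sub_eq_zero.mp h6) hc1
      · exact h6
    rw [hE, ← hs, h4, zero_smul]
  have hne0 : ∀ y : G, ρ y w ≠ 0 := by
    intro y h
    apply hw
    have h1 : ρ y⁻¹ (ρ y w) = 0 := by rw [h, map_zero]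
    rwa [← Module.End.mul_apply, ← map_mul, inv_mul_cancel, map_one, Module.End.one_apply] at h1
  have hli : LinearIndependent ℂ (fun q : G ⧸ T => ρ (Quotient.out q) w) := by
    rw [Fintype.linearIndependent_iff]
    intro g hg q
    have h1 : E (Quotient.out q) (∑ q' : G ⧸ T, g q' • ρ (Quotient.out q') w) = 0 := by
      rw [hg, map_zero]
    rw [map_sum, Finset.sum_eq_single q] at h1
    · rw [map_smul, hE1, smul_smul] at h1
      rcases smul_eq_zero.mp h1 with h2 | h2
      · rcases mul_eq_zero.mp h2 with h3 | h3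
        · exact h3
        · exfalso
          have : (Fintype.card A : ℂ) ≠ 0 := by
            norm_cast
            exact Fintype.card_ne_zero
          exact this h3
      · exact absurd h2 (hne0 _)
    · intro q' _ hq'
      rw [map_smul, hE0, smul_zero]
      intro h2
      apply hq'
      have h3 : ((Quotient.out q' : G) : G ⧸ T) = ((Quotient.out q : G) : G ⧸ T) :=
        QuotientGroup.eq.mpr (hst _ h2)
      rw [QuotientGroup.out_eq', QuotientGroup.out_eq'] at h3
      exact h3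
    · intro h
      exact absurd (Finset.mem_univ _) h
  have := hli.fintype_card_le_finrank
  rwa [Subgroup.index, Nat.card_eq_fintype_card]

end H12.KL
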